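import Pool.Agent.Helper84.BT.Goals

/-!
S_RSQ of the project BT: the polynomial part of the square root of the geometric sum.
-/

set_option autoImplicit false

open Finset

namespace Pool.Agent.Helper87.BT.RSQ

open Pool.Agent.Helper84.BT
open Pool.Agent.Helper7.BM (sg)

theorem bs_coeff (n : ℕ) : PowerSeries.coeff n (Bs (-1)) = (Nat.centralBinom n : ℤ) := by
  simp [Bs]

theorem conv_int (h : S_CB) (k : ℕ) : PowerSeries.coeff k (Bs (-1) ^ 2) = (4 : ℤ) ^ k := by
  have h1 := h (-1)
  have h2 : Bs (-1) ^ 2 = 1 + PowerSeries.C 4 * PowerSeries.X * Bs (-1) ^ 2 := by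
    have : la (-1) = 1 - PowerSeries.C 4 * PowerSeries.X := by
      unfold la
      rw [mul_neg_one, map_neg]
      ring
    rw [this] at h1
    linear_combination h1
  induction k with
  | zero =>
    rw [h2]
    simp
  | succ k ih =>
    rw [h2, map_add, mul_assoc, PowerSeries.coeff_C_mul, PowerSeries.coeff_succ_X_mul, ih,
      PowerSeries.coeff_one, if_neg (Nat.succ_ne_zero k), zero_add, pow_succ]
    ring

theorem conv (h : S_CB) (k : ℕ) :
    ∑ ij ∈ Finset.HasAntidiagonal.antidiagonal k,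
      Nat.centralBinom ij.1 * Nat.centralBinom ij.2 = 4 ^ k := by
  have h1 := conv_int h k
  rw [pow_two, PowerSeries.coeff_mul] at h1
  simp only [bs_coeff] at h1
  exact_mod_cast h1

/-- the coefficients of the square -/
def E (s k : ℕ) : ℕ := ∑ ij ∈ (range (s + 1) ×ˢ range (s + 1)).filter (fun ij => ij.1 + ij.2 = k),
  Nat.centralBinom ij.1 * Nat.centralBinom ij.2

theorem E_le (h : S_CB) (s k : ℕ) : E s k ≤ 4 ^ k := by
  rw [← conv h k]
  unfold E
  apply Finset.sum_le_sum_of_subset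
  intro ij hij
  rw [Finset.HasAntidiagonal.mem_antidiagonal]
  exact (Finset.mem_filter.1 hij).2

theorem E_eq (h : S_CB) (s k : ℕ) (hk : k ≤ s) : E s k = 4 ^ k := by
  rw [← conv h k]
  unfold E
  apply Finset.sum_congr _ fun _ _ => rfl
  ext ij
  simp only [Finset.mem_filter, Finset.mem_product, Finset.mem_range,
    Finset.HasAntidiagonal.mem_antidiagonal]
  constructor
  · exact fun h => h.2
  · intro h
    refine ⟨⟨?_, ?_⟩, h⟩ <;> omega

theorem Rr_sq (s x : ℕ) :
    Rr s x ^ 2 = ∑ k ∈ range (2 * s + 1), E s k * (4 * x) ^ (2 * s - k) := by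
  unfold Rr
  rw [pow_two, Finset.sum_mul_sum, ← Finset.sum_product',
    ← Finset.sum_fiberwise_of_maps_to (s := range (s + 1) ×ˢ range (s + 1))
      (t := range (2 * s + 1)) (g := fun ij => ij.1 + ij.2)]
  · refine Finset.sum_congr rfl fun k _ => ?_
    unfold E
    rw [Finset.sum_mul]
    refine Finset.sum_congr rfl fun ij hij => ?_
    simp only [Finset.mem_filter, Finset.mem_product, Finset.mem_range] at hij
    have h1 : 2 * s - k = (s - ij.1) + (s - ij.2) := by omega
    rw [h1, pow_add, mul_pow, mul_pow]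
    ring
  · intro ij hij
    simp only [Finset.mem_product, Finset.mem_range] at hij ⊢
    omega

theorem sg_eq (s x : ℕ) : 16 ^ s * sg x (2 * s) =
    ∑ k ∈ range (2 * s + 1), 4 ^ k * (4 * x) ^ (2 * s - k) := by
  unfold sg
  rw [← Finset.sum_range_reflect, Finset.mul_sum]
  refine Finset.sum_congr rfl fun k hk => ?_
  have hk' := Finset.mem_range.1 hk
  have h1 : (16 : ℕ) ^ s = 4 ^ k * 4 ^ (2 * s - k) := by
    rw [← pow_add, show k + (2 * s - k) = 2 * s by omega, pow_mul]
    norm_num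
  rw [h1, show 2 * s + 1 - 1 - k = 2 * s - k by omega, mul_pow]
  ring

theorem t : S_RSQ := by
  intro h s x hx
  refine ⟨?_, ?_, ?_⟩
  · rw [Rr_sq, sg_eq]
    exact Finset.sum_le_sum fun k _ => Nat.mul_le_mul_right _ (E_le h s k)
  · have h1 : 16 ^ s * sg x (2 * s) ≤ Rr s x ^ 2 + 16 ^ s * ∑ i ∈ range s, x ^ i := by
      have hadd : ∀ f : ℕ → ℕ, ∑ k ∈ range (2 * s + 1), f k =
          ∑ k ∈ range (s + 1), f k + ∑ k ∈ range s, f (s + 1 + k) := by
        intro f
        rw [show 2 * s + 1 = (s + 1) + s by ring, Finset.sum_range_add]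
      rw [Rr_sq, sg_eq, hadd, hadd]
      have h2 : ∑ k ∈ range (s + 1), 4 ^ k * (4 * x) ^ (2 * s - k) =
          ∑ k ∈ range (s + 1), E s k * (4 * x) ^ (2 * s - k) := by
        refine Finset.sum_congr rfl fun k hk => ?_
        rw [E_eq h s k (by have := Finset.mem_range.1 hk; omega)]
      have h3 : ∑ k ∈ range s, 4 ^ (s + 1 + k) * (4 * x) ^ (2 * s - (s + 1 + k)) =
          16 ^ s * ∑ i ∈ range s, x ^ i := by
        rw [← Finset.sum_range_reflect (fun i => x ^ i), Finset.mul_sum]
        refine Finset.sum_congr rfl fun k hk => ?_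
        have hk' := Finset.mem_range.1 hk
        have h4 : (16 : ℕ) ^ s = 4 ^ (s + 1 + k) * 4 ^ (2 * s - (s + 1 + k)) := by
          rw [← pow_add, show s + 1 + k + (2 * s - (s + 1 + k)) = 2 * s by omega, pow_mul]
          norm_num
        rw [h4, show s - 1 - k = 2 * s - (s + 1 + k) by omega, mul_pow]
        ring
      rw [h2, h3]
      have h5 : 0 ≤ ∑ k ∈ range s, E s (s + 1 + k) * (4 * x) ^ (2 * s - (s + 1 + k)) :=
        Nat.zero_le _
      omega
    have h6 : (x - 1) * ∑ i ∈ range s, x ^ i = x ^ s - 1 := by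
      have := Nat.geomSum_eq hx s
      rw [this]
      exact Nat.mul_div_cancel' (by simpa using Nat.sub_dvd_pow_sub_pow x 1 s)
    calc (x - 1) * (16 ^ s * sg x (2 * s)) ≤
        (x - 1) * (Rr s x ^ 2 + 16 ^ s * ∑ i ∈ range s, x ^ i) := Nat.mul_le_mul_left _ h1
      _ = (x - 1) * Rr s x ^ 2 + 16 ^ s * ((x - 1) * ∑ i ∈ range s, x ^ i) := by ring
      _ = _ := by rw [h6]
  · unfold Rr
    have h1 := Finset.single_le_sum (f := fun j => Nat.centralBinom j * 4 ^ (s - j) * x ^ (s - j))
      (s := range (s + 1)) (fun _ _ => Nat.zero_le _) (Finset.mem_range.2 (Nat.succ_pos s))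
    simpa using h1

end Pool.Agent.Helper87.BT.RSQ
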